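import Pool.Agent.MP_a59382_lc.P55.Defs

/-! Row SPAN of campaign h55p: components over a perfect constant field. -/

namespace Pool.Agent.P55

open Pool.Agent.MP_a59382_lc Pool.Agent.MP_a59382_lc.H11 Polynomial IsDedekindDomain WithZero
open Pool.Agent.MP_a59382_lc.H18 (In Sm Kit)
open scoped WithZero

noncomputable section

theorem span_poly {F K : Type} [Field F] [Field K] (φ : F[X] →+* K) {Q : ℕ} (hQ : Q ≠ 0)
    (hadd : ∀ x y : K, (x + y) ^ Q = x ^ Q + y ^ Q)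
    (hF : ∀ c : F, ∃ r : F, r ^ Q = c) (f : F[X]) :
    ∃ h : Fin Q → F[X], φ f = cs Q (φ X) (fun d => φ (h d)) := by
  induction f using Polynomial.induction_on' with
  | add f g hf hg =>
    obtain ⟨h, e⟩ := hf
    obtain ⟨h', e'⟩ := hg
    refine ⟨h + h', ?_⟩
    rw [map_add, e, e', ← cs_add' _ hadd]
    congr 1
    funext d
    simp
  | monomial n c =>
    obtain ⟨r, rfl⟩ := hF c
    have hd : n % Q < Q := Nat.mod_lt n (Nat.pos_of_ne_zero hQ)
    refine ⟨Pi.single ⟨n % Q, hd⟩ (C r * X ^ (n / Q)), ?_⟩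
    have e : (fun d => φ ((Pi.single ⟨n % Q, hd⟩ (C r * X ^ (n / Q)) : Fin Q → F[X]) d)) =
        Pi.single ⟨n % Q, hd⟩ (φ (C r * X ^ (n / Q))) := by
      funext d
      by_cases h : d = ⟨n % Q, hd⟩
      · rw [h, Pi.single_eq_same, Pi.single_eq_same]
      · rw [Pi.single_eq_of_ne h, Pi.single_eq_of_ne h, map_zero]
    rw [e, cs_single, ← C_mul_X_pow_eq_monomial, map_mul, map_mul, map_pow, map_pow, map_pow,
      map_pow, mul_pow, ← pow_mul, mul_assoc, ← pow_add, Nat.div_add_mod']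

theorem SPAN_row : SPAN_s := by
  intro p k _ _ _ _ n
  have hp : p.Prime := Fact.out
  have hQ : p ^ n ≠ 0 := pow_ne_zero n hp.ne_zero
  have hch : CharP (RatFunc k) p :=
    charP_of_injective_algebraMap (algebraMap k (RatFunc k)).injective p
  have hadd : ∀ x y : RatFunc k, (x + y) ^ p ^ n = x ^ p ^ n + y ^ p ^ n :=
    fun x y => add_pow_char_pow x y p n
  have hF : ∀ c : k, ∃ r : k, r ^ p ^ n = c := fun c =>
    (iterateFrobeniusEquiv k p n).surjective c
  have hpoly : ∀ f : k[X], ∃ h : Fin (p ^ n) → k[X], algebraMap k[X] (RatFunc k) f =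
      cs (p ^ n) RatFunc.X fun d => algebraMap k[X] (RatFunc k) (h d) := by
    intro f
    obtain ⟨h, e⟩ := span_poly (algebraMap k[X] (RatFunc k)) hQ hadd hF f
    exact ⟨h, by rw [e, RatFunc.algebraMap_X]⟩
  refine ⟨hpoly, fun y => ?_⟩
  obtain ⟨h, e⟩ := hpoly (y.num * y.denom ^ (p ^ n - 1))
  have h0 : algebraMap k[X] (RatFunc k) y.denom ≠ 0 :=
    RatFunc.algebraMap_ne_zero (RatFunc.denom_ne_zero y)
  refine ⟨fun d => (algebraMap k[X] (RatFunc k) y.denom)⁻¹ * algebraMap k[X] (RatFunc k) (h d), ?_⟩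
  rw [cs_smul, ← e, map_mul, map_pow]
  obtain ⟨Q, hQ'⟩ : ∃ Q', p ^ n = Q' + 1 := ⟨p ^ n - 1, by omega⟩
  rw [hQ']
  conv_lhs => rw [← RatFunc.num_div_denom y]
  rw [Nat.add_sub_cancel, inv_pow, pow_succ]
  field_simp

end

end Pool.Agent.P55
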