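import Pool.Agent.MP_a59382_lc.P55.Defs

namespace Pool.Agent.P55

open Pool.Agent.MP_a59382_lc Pool.Agent.MP_a59382_lc.H11 Polynomial IsDedekindDomain WithZero
open Pool.Agent.MP_a59382_lc.H18 (In Sm Kit)
open scoped WithZero

theorem COEF_dvd {k : Type} [Field k] (Q : ℕ) (g : k[X]) :
    (X ^ Q - X : k[X]) ∣ expand k Q g - g := by
  have h := Polynomial.sub_dvd_eval_sub (X ^ Q : k[X]) X (g.map C)
  have e1 : (g.map C).eval (X ^ Q : k[X]) = expand k Q g := by
    rw [expand_eq_comp_X_pow, Polynomial.comp, eval_map]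
  have e2 : (g.map C).eval (X : k[X]) = g := by
    rw [eval_map, eval₂_C_X]
  rwa [e1, e2] at h

theorem COEF_fix (p : ℕ) (k : Type) [Field k] [Fact p.Prime] [CharP k p] (m : ℕ) (f : k[X])
    (hd : f.degree < ((p ^ m : ℕ) : WithBot ℕ)) (h : X ^ p ^ m - X ∣ f ^ p ^ m - f) (i : ℕ) :
    f.coeff i ^ p ^ m = f.coeff i := by
  rcases Nat.eq_zero_or_pos m with rfl | hm
  · simp
  have hp : p.Prime := Fact.out
  have hQ : 1 < p ^ m := Nat.one_lt_pow hm.ne' hp.one_lt
  set g : k[X] := f.map (iterateFrobenius k p m) with hg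
  have e : f ^ p ^ m = expand k (p ^ m) g := by
    rw [hg, ← map_expand, map_iterateFrobenius_expand]
  have h2 : (X ^ p ^ m - X : k[X]) ∣ g - f := by
    have h3 := dvd_sub h (COEF_dvd (p ^ m) g)
    have e3 : f ^ p ^ m - f - (expand k (p ^ m) g - g) = g - f := by
      rw [e]; ring
    rwa [e3] at h3
  have hdeg : (X ^ p ^ m - X : k[X]).degree = ((p ^ m : ℕ) : WithBot ℕ) := by
    rw [degree_sub_eq_left_of_degree_lt, degree_X_pow]
    rw [degree_X_pow, degree_X]
    exact_mod_cast hQ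
  have hlt : (g - f).degree < (X ^ p ^ m - X : k[X]).degree := by
    rw [hdeg]
    refine lt_of_le_of_lt (degree_sub_le g f) (max_lt ?_ hd)
    exact lt_of_le_of_lt degree_map_le hd
  have h0 : g - f = 0 := eq_zero_of_dvd_of_degree_lt h2 hlt
  have h4 : g.coeff i = f.coeff i := by rw [sub_eq_zero.mp h0]
  rwa [hg, coeff_map, iterateFrobenius_def] at h4

theorem COEF_row : COEF_s := by
  intro p k _ _ _ n f hd h1 h2
  have hp : p.Prime := Fact.out
  rw [degree_X_pow] at hd
  have hd2 : f.degree < ((p ^ (n + 1) : ℕ) : WithBot ℕ) := by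
    refine lt_trans hd ?_
    exact_mod_cast Nat.pow_lt_pow_right hp.one_lt (Nat.lt_succ_self n)
  have hc : ∀ i, f.coeff i ^ p = f.coeff i := by
    intro i
    have a := COEF_fix p k n f hd h1 i
    have b := COEF_fix p k (n + 1) f hd2 h2 i
    rwa [pow_succ, pow_mul, a] at b
  have hl : f ∈ lifts (ZMod.castHom (dvd_refl p) k) := by
    rw [lifts_iff_coeff_lifts]
    intro i
    have hb : f.coeff i ∈ (⊥ : Subfield k) := (Subfield.mem_bot_iff_pow_eq_self k p).mpr (hc i)
    rw [← ZMod.fieldRange_castHom_eq_bot p] at hb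
    exact hb
  obtain ⟨g, hg⟩ := (mem_lifts f).mp hl
  exact ⟨g, hg.symm⟩

end Pool.Agent.P55
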