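import Pool.Agent.MP_a59382_lc.P55.Defs

namespace Pool.Agent.P55

open Pool.Agent.MP_a59382_lc Pool.Agent.MP_a59382_lc.H11 Polynomial IsDedekindDomain WithZero
open scoped WithZero

theorem comp_pole {K : Type} [Field K] (w : Valuation K ℤᵐ⁰) {t : K} (ht : w t = exp (1 : ℤ))
    {Q : ℕ} (m : ℤ) (c : Fin Q → K) (h : w (cs Q t c) ≤ exp ((Q : ℤ) * m)) (d : Fin Q) :
    w (c d) ≤ exp m := by
  by_cases hc : c d = 0
  · rw [hc, map_zero]
    exact zero_le
  obtain ⟨a, ha⟩ := ex_exp w hc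
  have h1 := (term_le w ht c d).trans h
  rw [map_mul, map_pow, map_pow, ha, ht, pow_exp, pow_exp, ← exp_add, exp_le_exp] at h1
  rw [ha, exp_le_exp]
  have h2 : (0 : ℤ) < Q := by exact_mod_cast d.pos
  have h4 : (0 : ℤ) ≤ (d : ℕ) := by positivity
  by_contra hlt
  have h5 : m + 1 ≤ a := by omega
  nlinarith

theorem comp_row (hS : SPAN_s) : COMP_s := by
  intro p k _ hp _ _ n
  obtain ⟨h1, h2⟩ := hS p k n
  have hQ : p ^ n ≠ 0 := pow_ne_zero n hp.out.ne_zero
  have hc : CharP (RatFunc k) p :=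
    charP_of_injective_algebraMap (algebraMap k (RatFunc k)).injective p
  obtain ⟨γ, hγ, h⟩ := local_comp (K := RatFunc k) (O := k[X]) (R := k[X]) hQ (t := RatFunc.X)
    (fun x y => add_pow_char_pow x y p n) h2 (indep_of_val (winf k) (winf_X k)) h1
  refine ⟨Sum.elim γ fun _ => 0, ?_, ?_⟩
  · refine (hγ.image Sum.inl).subset ?_
    rintro (v | v) hv
    · exact ⟨v, hv, rfl⟩
    · exact absurd rfl hv
  · rintro (v | v) m c hm d
    · exact h v m c hm d
    · have := comp_pole (winf k) (winf_X k) m c hm d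
      change winf k (c d) ≤ exp (m + ((0 : ℕ) : ℤ))
      rwa [Nat.cast_zero, add_zero]

end Pool.Agent.P55
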