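import Pool.Agent.MP_a59382_lc.H18.Rng

/-! Statements of the rows of campaign h55p: rational function fields over perfect fields. -/

namespace Pool.Agent.P55

open Pool.Agent.MP_a59382_lc Pool.Agent.MP_a59382_lc.H11 Polynomial IsDedekindDomain WithZero
open Pool.Agent.MP_a59382_lc.H18 (In Sm Kit)
open scoped WithZero

noncomputable section

/-- What is used about the family of all places when the constant field is only perfect. -/
structure Sy {K : Type} [Field K] (q : ℕ) (t : K) {ι : Type} (val : ι → Valuation K ℤᵐ⁰) :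
    Prop where
  two_le : 2 ≤ q
  frob : ∀ (k : ℕ) (x y : K), (x + y) ^ q ^ k = x ^ q ^ k + y ^ q ^ k
  supp : ∀ y : K, y ≠ 0 → {i | val i y ≠ 1}.Finite
  span : ∀ (Q k : ℕ), Q = q ^ k → ∀ y : K, ∃ c : Fin Q → K, y = cs Q t c
  indep : ∀ (Q k : ℕ), Q = q ^ k → ∀ c : Fin Q → K, cs Q t c = 0 → c = 0
  comp : ∀ (Q k : ℕ), Q = q ^ k → ∃ γ : ι → ℕ, {i | γ i ≠ 0}.Finite ∧
    ∀ (i : ι) (m : ℤ) (c : Fin Q → K), val i (cs Q t c) ≤ exp ((Q : ℤ) * m) →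
      ∀ d, val i (c d) ≤ exp (m + γ i)
  low : ∀ A : ι → ℕ, {i | A i ≠ 0}.Finite → ∃ B : ℕ, ∀ g : K, (∀ i, val i g ≤ exp (A i : ℤ)) →
    g ≠ 0 → ∀ i, exp (-(B : ℤ)) ≤ val i g
  cst : ∀ y : K, (∀ i, val i y ≤ 1) → ∃ z : K, y = z ^ q
  zer : ∃ i, val i t = exp (-1 : ℤ)
  pol : ∃ i, val i t = exp (1 : ℤ)

/-- The places of `k(t)`. -/
def vl (k : Type) [Field k] : HeightOneSpectrum k[X] ⊕ Unit → Valuation (RatFunc k) ℤᵐ⁰ :=
  Sum.elim (fun v => v.valuation (RatFunc k)) fun _ => winf k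

/-- The embedding of `F_p[t]`. -/
def ph (p : ℕ) (k : Type) [Field k] [Fact p.Prime] [CharP k p] : (ZMod p)[X] →+* RatFunc k :=
  (algebraMap k[X] (RatFunc k)).comp (mapRingHom (ZMod.castHom (dvd_refl p) k))

def POW_s : Prop := ∀ (K : Type) [Field K] (q : ℕ) (t : K) (ι : Type)
  (val : ι → Valuation K ℤᵐ⁰), Sy q t val → Dio1 fun x : K => ∃ n, x = t ^ q ^ n

def KIT_s : Prop := ∀ (F K : Type) [Field F] [Finite F] [Field K] (φ : F[X] →+* K) (t : K) (ι : Type)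
  (val : ι → Valuation K ℤᵐ⁰), Sy (Nat.card F) t val → φ X = t → ∃ O L, Kit φ val t O L

def FR_s : Prop := ∀ (F K : Type) [Field F] [Finite F] [Field K] (φ : F[X] →+* K) (t : K) (ι : Type)
  (val : ι → Valuation K ℤᵐ⁰), Sy (Nat.card F) t val → φ X = t → ∀ O L, Kit φ val t O L →
    ∃ Φ : K → K → K → Prop, (H18.Dio K fun x : K × K × K => Φ x.1 x.2.1 x.2.2) ∧
      (∀ T x h, Φ T x h → ∃ n, T = t ^ Nat.card F ^ n ∧ h = x ^ Nat.card F ^ n) ∧
      ∀ a n, Φ (t ^ Nat.card F ^ n) (φ a) (φ a ^ Nat.card F ^ n)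

/-- Components of polynomials and of rational functions. -/
def SPAN_s : Prop := ∀ (p : ℕ) (k : Type) [Field k] [Fact p.Prime] [CharP k p] [PerfectField k]
  (n : ℕ), (∀ f : k[X], ∃ h : Fin (p ^ n) → k[X], algebraMap k[X] (RatFunc k) f =
      cs (p ^ n) RatFunc.X fun d => algebraMap k[X] (RatFunc k) (h d)) ∧
    ∀ y : RatFunc k, ∃ c : Fin (p ^ n) → RatFunc k, y = cs (p ^ n) RatFunc.X c

def COMP_s : Prop := ∀ (p : ℕ) (k : Type) [Field k] [Fact p.Prime] [CharP k p] [PerfectField k]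
  (n : ℕ), ∃ γ : HeightOneSpectrum k[X] ⊕ Unit → ℕ, {i | γ i ≠ 0}.Finite ∧
    ∀ i (m : ℤ) (c : Fin (p ^ n) → RatFunc k),
      vl k i (cs (p ^ n) RatFunc.X c) ≤ exp (((p ^ n : ℕ) : ℤ) * m) →
        ∀ d, vl k i (c d) ≤ exp (m + γ i)

def LOW_s : Prop := ∀ (k : Type) [Field k] (A : HeightOneSpectrum k[X] ⊕ Unit → ℕ),
  {i | A i ≠ 0}.Finite → ∃ B : ℕ, ∀ g : RatFunc k, (∀ i, vl k i g ≤ exp (A i : ℤ)) →
    g ≠ 0 → ∀ i, exp (-(B : ℤ)) ≤ vl k i g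

def PLC_s : Prop := ∀ (k : Type) [Field k],
  (∀ y : RatFunc k, In (vl k) RatFunc.X y → ∃ f : k[X], y = algebraMap k[X] (RatFunc k) f) ∧
    (∀ y : RatFunc k, (∀ i, vl k i y ≤ 1) → ∃ c : k, y = algebraMap k[X] (RatFunc k) (C c)) ∧
    (∃ i, vl k i RatFunc.X = exp (-1 : ℤ)) ∧
    ∀ f g : k[X], Sm (vl k) RatFunc.X (algebraMap k[X] (RatFunc k) f)
      (algebraMap k[X] (RatFunc k) g) → f.degree < g.degree

def SYS_s : Prop := ∀ (p : ℕ) (k : Type) [Field k] [Fact p.Prime] [CharP k p] [PerfectField k],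
  Sy p (RatFunc.X : RatFunc k) (vl k)

/-- The coefficients lie in the prime field. -/
def COEF_s : Prop := ∀ (p : ℕ) (k : Type) [Field k] [Fact p.Prime] [CharP k p] (n : ℕ) (f : k[X]),
  f.degree < (X ^ p ^ n : k[X]).degree → X ^ p ^ n - X ∣ f ^ p ^ n - f →
    X ^ p ^ (n + 1) - X ∣ f ^ p ^ (n + 1) - f →
      ∃ g : (ZMod p)[X], f = g.map (ZMod.castHom (dvd_refl p) k)

def RNG_s : Prop := ∀ (p : ℕ) (k : Type) [Field k] [Fact p.Prime] [CharP k p] [PerfectField k],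
  H18.Dio (RatFunc k) fun x : RatFunc k => x ∈ (ph p k).range

def TOP_s : Prop := ∀ (p : ℕ) (k : Type) [Field k] [Fact p.Prime] [CharP k p] [PerfectField k]
  (S : ℕ → Prop), REPred S → ∃ (n : ℕ) (f : MvPolynomial (Fin 1 ⊕ Fin n) (RatFunc k)),
    ∀ a : RatFunc k, (∃ z : Fin n → RatFunc k, MvPolynomial.eval (Sum.elim ![a] z) f = 0) ↔
      ∃ j, S j ∧ a = RatFunc.X ^ j

end

end Pool.Agent.P55
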