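import Pool.Agent.MP_a59382_lc.P55.Defs

namespace Pool.Agent.P55

open Pool.Agent.MP_a59382_lc Pool.Agent.MP_a59382_lc.H11 Polynomial IsDedekindDomain WithZero
open scoped WithZero

/-- The order of a polynomial at a finite place is at most its degree. -/
theorem low_ord {k : Type} [Field k] (v : HeightOneSpectrum k[X]) {f : k[X]} (hf : f ≠ 0) :
    exp (-(f.natDegree : ℤ)) ≤ v.valuation (RatFunc k) (algebraMap k[X] (RatFunc k) f) := by
  by_contra h
  have hf' : algebraMap k[X] (RatFunc k) f ≠ 0 := fun e =>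
    hf (RatFunc.algebraMap_injective k (by rw [e, map_zero]))
  obtain ⟨n, hn⟩ := ex_exp (v.valuation (RatFunc k)) hf'
  have h1 : v.intValuation f ≤ exp (-((f.natDegree + 1 : ℕ) : ℤ)) := by
    rw [← v.valuation_of_algebraMap (K := RatFunc k)]
    rw [hn, exp_le_exp] at h
    refine hn.trans_le (exp_le_exp.2 ?_)
    push_cast
    omega
  obtain ⟨p, hp⟩ := (IsPrincipalIdealRing.principal v.asIdeal).principal
  have hp' : v.asIdeal = Ideal.span {p} := hp
  rw [v.intValuation_le_pow_iff_mem, hp', Ideal.span_singleton_pow, Ideal.mem_span_singleton] at h1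
  have hp0 : p ≠ 0 := fun e => v.ne_bot (by rw [hp', e, Ideal.span_singleton_zero])
  have hu : ¬IsUnit p := fun e => v.isPrime.ne_top (hp' ▸ Ideal.span_singleton_eq_top.2 e)
  have h2 := natDegree_pos_iff_degree_pos.2 (degree_pos_of_ne_zero_of_nonunit hp0 hu)
  have h3 := natDegree_le_of_dvd h1 hf
  rw [natDegree_pow] at h3
  have h4 := Nat.mul_le_mul_left (f.natDegree + 1) h2
  omega

theorem low_den {k : Type} [Field k] (A : HeightOneSpectrum k[X] → ℕ) (hA : {v | A v ≠ 0}.Finite) :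
    ∃ δ : k[X], δ ≠ 0 ∧ ∀ v : HeightOneSpectrum k[X],
      v.valuation (RatFunc k) (algebraMap k[X] (RatFunc k) δ) ≤ exp (-(A v : ℤ)) := by
  classical
  obtain ⟨B₀, hB₀⟩ := bdd_of_supp hA
  have hg : ∀ v : HeightOneSpectrum k[X], ∃ g : k[X], g ≠ 0 ∧
      v.valuation (RatFunc k) (algebraMap k[X] (RatFunc k) g) < 1 := fun v => by
    obtain ⟨a, ha, ha0⟩ := Submodule.exists_mem_ne_zero_of_ne_bot v.ne_bot
    exact ⟨a, ha0, (v.valuation_lt_one_iff_mem a).2 ha⟩
  choose g hg0 hg using hg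
  refine ⟨(∏ v ∈ hA.toFinset, g v) ^ B₀,
    pow_ne_zero _ (Finset.prod_ne_zero_iff.2 fun v _ => hg0 v), fun v => ?_⟩
  by_cases hv : A v = 0
  · rw [hv, Nat.cast_zero, neg_zero, exp_zero]
    exact v.valuation_le_one _
  · have h1 : v.valuation (RatFunc k) (algebraMap k[X] (RatFunc k) (∏ v ∈ hA.toFinset, g v)) ≤
        exp (-1 : ℤ) := by
      rw [← Finset.mul_prod_erase _ _ (hA.mem_toFinset.2 hv), map_mul, map_mul]
      exact (mul_le_mul' (le_exp_neg_one _ (hg v)) (v.valuation_le_one _)).trans (mul_one _).le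
    rw [map_pow]
    refine (val_pow_le _ h1 B₀).trans (exp_le_exp.2 ?_)
    have := hB₀ v
    omega

theorem low_row : LOW_s := by
  intro k _ A hA
  obtain ⟨δ, hδ0, hδ⟩ := low_den (fun v => A (Sum.inl v))
    (hA.preimage (f := Sum.inl) Sum.inl_injective.injOn)
  refine ⟨A (Sum.inr ()) + δ.natDegree, fun g hg hg0 i => ?_⟩
  obtain ⟨a, ha⟩ := HeightOneSpectrum.mem_integers_of_valuation_le_one (R := k[X]) (RatFunc k)
    (g * algebraMap k[X] (RatFunc k) δ) fun v => by
      rw [map_mul]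
      refine (mul_le_mul' (hg (Sum.inl v)) (hδ v)).trans ?_
      rw [← exp_add, add_neg_cancel, exp_zero]
  have ha0 : a ≠ 0 := by
    rintro rfl
    rw [map_zero] at ha
    exact mul_ne_zero hg0 (fun e => hδ0 (RatFunc.algebraMap_injective k (by rw [e, map_zero])))
      ha.symm
  obtain ⟨n, hn⟩ := ex_exp (winf k) hg0
  have h1 : (a.natDegree : ℤ) = n + δ.natDegree := by
    have h := winf_poly k ha0
    rw [ha, map_mul, hn, winf_poly k hδ0, ← exp_add, exp_inj] at h
    exact h.symm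
  have h2 : n ≤ A (Sum.inr ()) := exp_le_exp.1 (hn.symm.trans_le (hg (Sum.inr ())))
  rcases i with v | u
  · have h3 := low_ord v ha0
    rw [ha, map_mul] at h3
    refine (exp_le_exp.2 ?_).trans (h3.trans (mul_le_of_le_one_right' (v.valuation_le_one δ)))
    push_cast
    omega
  · refine (exp_le_exp.2 ?_).trans hn.ge
    push_cast
    omega

end Pool.Agent.P55
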