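import Pool.Agent.MP_a59382_lc.P55.Defs

namespace Pool.Agent.P55

open Pool.Agent.MP_a59382_lc Pool.Agent.MP_a59382_lc.H11 Polynomial IsDedekindDomain WithZero
open Pool.Agent.MP_a59382_lc.H18 (In Sm Kit)
open scoped WithZero

theorem plc_poly (k : Type) [Field k] (y : RatFunc k)
    (h : ∀ v : HeightOneSpectrum k[X], vl k (Sum.inl v) y ≤ 1) :
    ∃ f : k[X], y = algebraMap k[X] (RatFunc k) f := by
  obtain ⟨f, hf⟩ := HeightOneSpectrum.mem_integers_of_valuation_le_one (R := k[X]) (RatFunc k) y h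
  exact ⟨f, hf.symm⟩

theorem plc_row : PLC_s := by
  intro k _
  refine ⟨fun y hy => plc_poly k y fun v => hy _ ?_, fun y hy => ?_,
    ⟨Sum.inl (idealX k), valuation_X_eq_neg_one k⟩, fun f g h => ?_⟩
  · rw [← RatFunc.algebraMap_X]
    exact val_le_one v _
  · obtain ⟨f, rfl⟩ := plc_poly k y fun v => hy _
    rcases eq_or_ne f 0 with rfl | hf
    · exact ⟨0, by rw [C_0]⟩
    · have h1 : winf k (algebraMap k[X] (RatFunc k) f) ≤ 1 := hy (Sum.inr ())
      rw [winf_poly k hf, ← exp_zero, exp_le_exp] at h1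
      have h2 : f.natDegree = 0 := by omega
      exact ⟨f.coeff 0, congrArg _ (eq_C_of_natDegree_eq_zero h2)⟩
  · have h0 : (1 : ℤᵐ⁰) < winf k RatFunc.X := by
      rw [winf_X, ← exp_zero, exp_lt_exp]
      exact one_pos
    have h1 : winf k (algebraMap k[X] (RatFunc k) f) < winf k (algebraMap k[X] (RatFunc k) g) :=
      h (Sum.inr ()) h0
    have hg : g ≠ 0 := by
      rintro rfl
      rw [map_zero, map_zero] at h1
      exact not_lt_zero h1
    rcases eq_or_ne f 0 with rfl | hf
    · rw [degree_zero]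
      exact bot_lt_iff_ne_bot.2 fun e => hg (degree_eq_bot.1 e)
    · rw [winf_poly k hf, winf_poly k hg, exp_lt_exp] at h1
      exact degree_lt_degree (by exact_mod_cast h1)

end Pool.Agent.P55
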