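import Pool.Agent.MP_a59382_lc.P55.Defs

namespace Pool.Agent.P55

open Pool.Agent.MP_a59382_lc Pool.Agent.MP_a59382_lc.H11 Polynomial IsDedekindDomain WithZero
open Pool.Agent.MP_a59382_lc.H18 (In Sm Kit)
open scoped WithZero

theorem rng_dvd {F K : Type} [Field F] [Finite F] [Field K] (φ : F[X] →+* K) (a : F[X]) (n : ℕ) :
    ∃ s, φ a ^ Nat.card F ^ n - φ a = φ s * (φ X ^ Nat.card F ^ n - φ X) := by
  obtain ⟨s, hs⟩ := H18.dvd_expand_sub (Nat.card F ^ n) a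
  rw [← H18.pow_eq_expand] at hs
  exact ⟨s, by simpa [mul_comm] using congrArg φ hs⟩

theorem rng_row (hS : SYS_s) (hK : KIT_s) (hF : FR_s) (hP : PLC_s) (hC : COEF_s) : RNG_s := by
  intro p k _ _ _ _
  have hc : Nat.card (ZMod p) = p := Nat.card_zmod p
  have hp : 1 < p := (Fact.out : p.Prime).one_lt
  have S : Sy (Nat.card (ZMod p)) (RatFunc.X : RatFunc k) (vl k) := by
    rw [hc]
    exact hS p k
  have ht : ph p k X = RatFunc.X := by simp [ph]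
  obtain ⟨O, L, M⟩ := hK _ _ (ph p k) _ _ _ S ht
  obtain ⟨Φ, hΦ, f1, f2⟩ := hF _ _ (ph p k) _ _ _ S ht O L M
  have hd := rng_dvd (ph p k)
  rw [ht] at hd
  rw [hc] at f1 f2 hd
  obtain ⟨p1, -, -, p4⟩ := hP k
  have : H18.Dio (RatFunc k) fun x : RatFunc k => ∃ T h s s', Φ T x h ∧ O x ∧ O s ∧ O s' ∧
      L x T ∧ h - x = s * (T - RatFunc.X) ∧ h ^ p - x = s' * (T ^ p - RatFunc.X) := by
    refine .ex (.ex (.ex (.ex (.and (hΦ.app3 ?_ ?_ ?_) (.and (M.dO.comp ?_) (.and (M.dO.comp ?_)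
      (.and (M.dO.comp ?_) (.and (M.dL.app2 ?_ ?_) (.and (.eq ?_ ?_) (.eq ?_ ?_))))))))))
      <;> fun_prop
  refine this.congr fun x => ⟨?_, ?_⟩
  · rintro ⟨a, rfl⟩
    obtain ⟨s, hs⟩ := hd a a.natDegree
    obtain ⟨s', hs'⟩ := hd a (a.natDegree + 1)
    refine ⟨_, _, ph p k s, ph p k s', f2 a a.natDegree, M.oP _, M.oP _, M.oP _, ?_, hs, ?_⟩
    · rw [← ht, ← map_pow]
      refine M.lP _ _ (degree_lt_degree ?_)
      rw [natDegree_X_pow]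
      exact Nat.lt_pow_self hp
    · rw [← pow_mul, ← pow_mul, ← pow_succ]
      exact hs'
  · rintro ⟨T, h, s, s', a1, a2, a3, a4, a5, a6, a7⟩
    obtain ⟨n, rfl, rfl⟩ := f1 _ _ _ a1
    obtain ⟨f, rfl⟩ := p1 _ (M.oI _ a2)
    obtain ⟨g, rfl⟩ := p1 _ (M.oI _ a3)
    obtain ⟨g', rfl⟩ := p1 _ (M.oI _ a4)
    rw [← pow_mul, ← pow_mul, ← pow_succ] at a7
    have hi := IsFractionRing.injective k[X] (RatFunc k)
    obtain ⟨b, rfl⟩ := hC p k n f (p4 _ _ (by simpa using M.lS _ _ a5))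
      ⟨g, hi (by simpa [mul_comm] using a6)⟩ ⟨g', hi (by simpa [mul_comm] using a7)⟩
    exact ⟨b, rfl⟩

end Pool.Agent.P55
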