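import Pool.Agent.MP_a59382_lc.P55.Defs

namespace Pool.Agent.P55

open Pool.Agent.MP_a59382_lc Pool.Agent.MP_a59382_lc.H11 Polynomial IsDedekindDomain WithZero
open Pool.Agent.MP_a59382_lc.H18 (In Sm Kit)
open scoped WithZero

theorem sys_row (hSPAN : SPAN_s) (hCOMP : COMP_s) (hLOW : LOW_s) (hPLC : PLC_s) : SYS_s := by
  intro p k _ hp _ _
  obtain ⟨-, hc, hz, -⟩ := hPLC k
  refine ⟨hp.out.two_le, fun n x y => add_pow_char_pow x y p n, fun y hy => ?_, ?_, ?_, ?_,
    hLOW k, fun y hy => ?_, hz, ⟨Sum.inr (), winf_X k⟩⟩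
  · exact finite_sum (p := fun i => vl k i y ≠ 1) (supp_finite (O := k[X]) hy) (Set.toFinite _)
  · rintro Q n rfl
    exact (hSPAN p k n).2
  · intro Q n _ c h
    exact indep_of_val (winf k) (winf_X k) c h
  · rintro Q n rfl
    exact hCOMP p k n
  · obtain ⟨c, rfl⟩ := hc y hy
    have : PerfectRing k p := PerfectField.toPerfectRing p
    obtain ⟨d, rfl⟩ := surjective_frobenius k p c
    exact ⟨algebraMap k[X] (RatFunc k) (C d), by rw [frobenius_def, map_pow, map_pow]⟩

end Pool.Agent.P55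

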