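import Pool.Agent.MP_a59382_lc.P55.Defs

/-! Row TOP: recursively enumerable sets are diophantine on exponents of `t`. -/

namespace Pool.Agent.P55

open Pool.Agent.MP_a59382_lc Pool.Agent.MP_a59382_lc.H11 Polynomial IsDedekindDomain WithZero
open Pool.Agent.MP_a59382_lc.H18 (In Sm Kit)
open scoped WithZero

theorem top_aniso {K : Type} [Field K] {q : ℕ} {t : K} {ι : Type} {val : ι → Valuation K ℤᵐ⁰}
    (S : Sy q t val) : Aniso K := by
  have h2 := S.two_le
  obtain ⟨i, hi⟩ := S.pol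
  have hn : ∀ y : K, t ≠ y ^ q := fun y h => by
    have hy : y ≠ 0 := by
      rintro rfl
      rw [h, zero_pow (by omega), map_zero] at hi
      exact exp_ne_zero hi.symm
    obtain ⟨m, hm⟩ := ex_exp (val i) hy
    rw [h, map_pow, hm, pow_exp, exp_inj] at hi
    have h3 : (q : ℤ) ∣ 1 := ⟨m, hi.symm⟩
    have := Int.le_of_dvd one_pos h3
    omega
  refine ⟨q, t, by omega, fun x y h => ?_⟩
  by_cases hy : y = 0
  · subst hy
    rw [zero_pow (by omega), mul_zero, sub_zero] at h
    exact ⟨(pow_eq_zero_iff (by omega)).1 h, rfl⟩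
  · refine absurd ?_ (hn (x / y))
    rw [div_pow, eq_div_iff (pow_ne_zero _ hy)]
    exact (sub_eq_zero.1 h).symm

theorem top_inj (p : ℕ) (k : Type) [Field k] [Fact p.Prime] [CharP k p] :
    Function.Injective (ph p k) :=
  (IsFractionRing.injective k[X] (RatFunc k)).comp
    (map_injective _ (ZMod.castHom (dvd_refl p) k).injective)

theorem top_X (p : ℕ) (k : Type) [Field k] [Fact p.Prime] [CharP k p] :
    ph p k X = RatFunc.X := by
  simp [ph]

theorem top_row (hR : RNG_s) (hS : SYS_s) : TOP_s := by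
  intro p k _ _ _ _ S hre
  have h1 := (H18.base (ZMod p)).re (σ := Fin 1) (π := fun _ (j : ℕ) => j) hre
    fun _ => Computable.id
  obtain ⟨n, f, hf⟩ := H18.Dio.out (top_aniso (hS p k))
    (H18.Dio.up (ph p k) (top_inj p k) (hR p k) h1)
  refine ⟨n, f, fun a => (hf ![a]).trans ⟨?_, ?_⟩⟩
  · rintro ⟨v, hv, j, hj, e⟩
    refine ⟨j, hj, ?_⟩
    have := hv 0
    rw [e 0, map_pow, top_X] at this
    exact this
  · rintro ⟨j, hj, rfl⟩
    refine ⟨fun _ => X ^ j, fun s => ?_, j, hj, fun _ => rfl⟩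
    rw [map_pow, top_X, Subsingleton.elim s 0]
    rfl

end Pool.Agent.P55
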