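import Pool.Agent.MP_a59382_lc.P55.COEF
import Pool.Agent.MP_a59382_lc.P55.COMP
import Pool.Agent.MP_a59382_lc.P55.KIT
import Pool.Agent.MP_a59382_lc.P55.LOW
import Pool.Agent.MP_a59382_lc.P55.PLC
import Pool.Agent.MP_a59382_lc.P55.RNG
import Pool.Agent.MP_a59382_lc.P55.SPAN
import Pool.Agent.MP_a59382_lc.P55.SYS
import Pool.Agent.MP_a59382_lc.P55.TOP

/-! Assembly: listable sets of exponents are diophantine in `k(t)` for perfect `k`. -/

namespace Pool.Agent.P55

theorem sys : SYS_s := sys_row SPAN_row (comp_row SPAN_row) low_row plc_row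

/-- `F_p[t]` is diophantine in `k(t)`. -/
theorem rng : RNG_s := rng_row sys kit_row fr_row plc_row COEF_row

theorem top : TOP_s := top_row rng sys

end Pool.Agent.P55
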