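import Pool.Agent.MP_a59382_lc.P55.Defs

/-! Row POW: the powers `t ^ q ^ n` and the pole bound of the machine. -/

namespace Pool.Agent.P55

open Pool.Agent.MP_a59382_lc Pool.Agent.MP_a59382_lc.H11 WithZero
open scoped WithZero

variable {K : Type} [Field K]

namespace Sy

variable {q : ℕ} {t : K} {ι : Type} {val : ι → Valuation K ℤᵐ⁰} (S : Sy q t val)
include S

theorem pow_pos (k : ℕ) : 0 < q ^ k := Nat.pow_pos (by have := S.two_le; omega)

theorem frob_sub (k : ℕ) (x y : K) : (x - y) ^ q ^ k = x ^ q ^ k - y ^ q ^ k := by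
  have := S.frob k (x - y) y
  rw [sub_add_cancel] at this
  rw [this, add_sub_cancel_right]

theorem frob_neg (k : ℕ) (x : K) : (-x) ^ q ^ k = -x ^ q ^ k := by
  have := S.frob_sub k 0 x
  rwa [zero_sub, zero_pow (S.pow_pos k).ne', zero_sub] at this

theorem frob_inj (k : ℕ) {x y : K} (h : x ^ q ^ k = y ^ q ^ k) : x = y := by
  have := S.frob_sub k x y
  rw [h, sub_self] at this
  exact sub_eq_zero.1 (pow_eq_zero_iff (S.pow_pos k).ne' |>.1 this)

theorem cs_add {Q k : ℕ} (hQ : Q = q ^ k) (c c' : Fin Q → K) :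
    cs Q t (c + c') = cs Q t c + cs Q t c' :=
  cs_add' t (fun x y => hQ ▸ S.frob k x y) c c'

theorem cs_inj {Q k : ℕ} (hQ : Q = q ^ k) {c c' : Fin Q → K} (h : cs Q t c = cs Q t c') :
    c = c' := by
  have := S.cs_add hQ (c - c') c'
  rw [sub_add_cancel, h, right_eq_add] at this
  exact sub_eq_zero.1 (S.indep Q k hQ _ this)

theorem not_pow (y : K) : t ≠ y ^ q := by
  intro h
  have h2 := S.two_le
  have e : cs q t (Pi.single ⟨1, by omega⟩ 1) = cs q t (Pi.single ⟨0, by omega⟩ y) := by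
    rw [cs_single, cs_single]
    simpa using h
  have := congrFun (S.cs_inj (pow_one q).symm e) ⟨1, by omega⟩
  simp at this

theorem t_ne : t ≠ 0 := by
  have := S.not_pow 0
  rwa [zero_pow (by have := S.two_le; omega)] at this

theorem aniso : Aniso K := by
  have h2 := S.two_le
  refine ⟨q, t, by omega, fun x y h => ?_⟩
  by_cases hy : y = 0
  · subst hy
    rw [zero_pow (by omega), mul_zero, sub_zero] at h
    exact ⟨pow_eq_zero_iff (by omega) |>.1 h, rfl⟩
  · refine absurd ?_ (S.not_pow (x / y))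
    rw [div_pow, eq_div_iff (pow_ne_zero _ hy)]
    exact (sub_eq_zero.1 h).symm

theorem bdd (y : K) : ∃ B : ℕ, ∀ i, val i y ≤ exp (B : ℤ) := by
  classical
  by_cases hy : y = 0
  · exact ⟨0, fun i => by simp [hy]⟩
  choose n hn using fun i => ex_le (val i) y
  obtain ⟨B, hB⟩ := bdd_of_supp (A := fun i => if val i y = 1 then 0 else n i)
    ((S.supp y hy).subset fun i hi h => by simp [h] at hi)
  refine ⟨B, fun i => ?_⟩
  have := hB i
  by_cases h : val i y = 1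
  · rw [h]
    exact one_le_exp B
  · simp only [h, if_false] at this
    exact exp_mono (hn i) (by exact_mod_cast this)

/-- The component bound for an arbitrary pole order. -/
theorem comp' {Q k : ℕ} (hQ : Q = q ^ k) : ∃ γ : ι → ℕ, {i | γ i ≠ 0}.Finite ∧
    (∀ (i : ι) (m : ℤ) (c : Fin Q → K), val i (cs Q t c) ≤ exp ((Q : ℤ) * m) →
      ∀ d, val i (c d ^ Q) ≤ exp (Q * m + Q * γ i)) ∧
    ∀ (i : ι) (n : ℤ) (c : Fin Q → K), val i (cs Q t c) ≤ exp n →
      ∀ d, val i (c d ^ Q) ≤ exp (n + Q + Q * γ i) := by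
  obtain ⟨γ, hγ, h⟩ := S.comp Q k hQ
  have h1 : ∀ (i : ι) (m : ℤ) (c : Fin Q → K), val i (cs Q t c) ≤ exp ((Q : ℤ) * m) →
      ∀ d, val i (c d ^ Q) ≤ exp (Q * m + Q * γ i) := fun i m c hc d => by
    rw [← mul_add]
    exact val_pow_le _ (h i m c hc d) Q
  refine ⟨γ, hγ, h1, fun i n c hc d => ?_⟩
  obtain ⟨m, h2, h3⟩ := ex_ceil n (Q := Q) (hQ ▸ S.pow_pos k)
  exact exp_mono (h1 i m c (exp_mono hc h2) d) (by omega)


theorem as_zero (k : ℕ) : AS (q ^ k) (0 : K) := ⟨0, by rw [zero_pow (S.pow_pos k).ne', sub_zero]⟩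

theorem as_add {k : ℕ} {a b : K} (ha : AS (q ^ k) a) (hb : AS (q ^ k) b) : AS (q ^ k) (a + b) := by
  obtain ⟨u, rfl⟩ := ha
  obtain ⟨w, rfl⟩ := hb
  exact ⟨u + w, by rw [S.frob]; ring⟩

theorem as_sub {k : ℕ} {a b : K} (ha : AS (q ^ k) a) (hb : AS (q ^ k) b) : AS (q ^ k) (a - b) := by
  obtain ⟨u, rfl⟩ := ha
  obtain ⟨w, rfl⟩ := hb
  exact ⟨u - w, by rw [S.frob_sub]; ring⟩

theorem as_iter (k a : ℕ) (z : K) : AS (q ^ k) (z ^ q ^ (k * a) - z) := by
  induction a with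
  | zero => simpa using S.as_zero k
  | succ a ih =>
    have := S.as_add ih ⟨z ^ q ^ (k * a), rfl⟩
    convert this using 1
    rw [← pow_mul, ← pow_add, Nat.mul_succ]
    ring

theorem as_root {k : ℕ} (hk : 0 < k) {y : K} (h : AS (q ^ k) (y ^ q)) : AS (q ^ k) y := by
  obtain ⟨u, hu⟩ := h
  obtain ⟨k, rfl⟩ : ∃ k', k = k' + 1 := ⟨k - 1, by omega⟩
  have h1 : u = (u ^ q ^ k - y) ^ q ^ 1 := by
    rw [S.frob_sub, ← pow_mul, ← pow_add, pow_one, hu]
    ring
  refine ⟨u ^ q ^ k - y, S.frob_inj 1 ?_⟩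
  rw [S.frob_sub 1 ((u ^ q ^ k - y) ^ q ^ (k + 1)), ← h1, ← pow_mul, mul_comm, pow_mul, ← h1,
    pow_one, hu]

theorem phi_shift {k : ℕ} (a : ℕ) {τ x : K} :
    Phi (q ^ k) (τ ^ q ^ (k * a)) x ↔ Phi (q ^ k) τ x := by
  have h1 := S.as_iter k a τ
  have h2 := S.as_iter k a τ⁻¹
  rw [inv_pow] at h2
  constructor
  · rintro ⟨h0, h, h'⟩
    exact ⟨h0, by simpa using S.as_add h h1, by simpa using S.as_add h' h2⟩
  · rintro ⟨h0, h, h'⟩
    exact ⟨h0, by simpa using S.as_sub h h1, by simpa using S.as_sub h' h2⟩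

theorem phi_root {k : ℕ} (hk : 0 < k) {τ x : K} (h : Phi (q ^ k) (τ ^ q) (x ^ q)) :
    Phi (q ^ k) τ x := by
  obtain ⟨h0, h, h'⟩ := h
  have e := S.frob_sub 1 x τ
  have e' := S.frob_sub 1 x⁻¹ τ⁻¹
  rw [pow_one] at e e'
  refine ⟨fun hx => h0 (by rw [hx, zero_pow (by have := S.two_le; omega)]),
    S.as_root hk (by rwa [e]), S.as_root hk (by rwa [e', inv_pow, inv_pow])⟩

/-- Away from the zeros and poles of `t` the order of a solution is divisible by `q`. -/
theorem phi_ord {k j : ℕ} (hk : 0 < k) {x : K} (h : Phi (q ^ k) (t ^ q ^ j) x) {i : ι}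
    (hi : val i t = 1) : ∃ m : ℤ, val i x = exp ((q : ℤ) * m) := by
  obtain ⟨h0, ⟨u, hu⟩, ⟨w, hw⟩⟩ := h
  obtain ⟨k, rfl⟩ : ∃ k', k = k' + 1 := ⟨k - 1, by omega⟩
  have hQ : 2 ≤ q ^ (k + 1) := by
    have := S.pow_pos k
    have := S.two_le
    rw [pow_succ]
    nlinarith
  have hτ : val i (t ^ q ^ j) = 1 := by rw [map_pow, hi, one_pow]
  rcases lt_trichotomy (val i x) 1 with hx | hx | hx
  · have hx' : 1 < val i x⁻¹ := by
      rw [map_inv₀]
      exact one_lt_inv_iff₀.2 ⟨zero_lt_iff.2 ((Valuation.ne_zero_iff _).2 h0), hx⟩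
    have e : val i (x⁻¹ - (t ^ q ^ j)⁻¹) = val i x⁻¹ :=
      (val i).map_sub_eq_of_lt_left (by rw [map_inv₀, hτ, inv_one]; exact hx')
    obtain ⟨n, -, -, hn⟩ := as_pole (val i) hQ (u := w) (by rw [← hw, e]; exact hx')
    rw [← hw, e, map_inv₀, inv_eq_iff_eq_inv, ← exp_neg] at hn
    refine ⟨-(q ^ k * n), ?_⟩
    rw [hn]
    congr 1
    push_cast
    ring
  · exact ⟨0, by simpa using hx⟩
  · have e : val i (x - t ^ q ^ j) = val i x :=
      (val i).map_sub_eq_of_lt_left (by rw [hτ]; exact hx)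
    obtain ⟨n, -, -, hn⟩ := as_pole (val i) hQ (u := u) (by rw [← hu, e]; exact hx)
    rw [← hu, e] at hn
    refine ⟨q ^ k * n, ?_⟩
    rw [hn]
    congr 1
    push_cast
    ring

theorem comp_rhs {k : ℕ} (hk : 0 < k) (j : ℕ) (u : K) :
    ∃ e : Fin q → K, u ^ q ^ k + t ^ q ^ j = cs q t e ∧
      ∀ l : Fin q, (l : ℕ) ≠ 0 → e l = 0 ∨ e l = 1 := by
  have h2 := S.two_le
  obtain ⟨k, rfl⟩ : ∃ k', k = k' + 1 := ⟨k - 1, by omega⟩
  cases j with
  | zero =>
    refine ⟨Pi.single ⟨0, by omega⟩ (u ^ q ^ k) + Pi.single ⟨1, by omega⟩ 1, ?_, fun l hl => ?_⟩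
    · rw [S.cs_add (pow_one q).symm, cs_single, cs_single, ← pow_mul, ← pow_succ]
      simp
    · have : l ≠ ⟨0, by omega⟩ := fun h => hl (by rw [h])
      by_cases h1 : l = ⟨1, by omega⟩
      · right
        rw [Pi.add_apply, Pi.single_eq_of_ne this, h1]
        simp
      · left
        rw [Pi.add_apply, Pi.single_eq_of_ne this, Pi.single_eq_of_ne h1]
        simp
  | succ j =>
    refine ⟨Pi.single ⟨0, by omega⟩ (u ^ q ^ k + t ^ q ^ j), ?_, fun l hl => ?_⟩
    · have := S.frob 1 (u ^ q ^ k) (t ^ q ^ j)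
      rw [pow_one] at this
      rw [cs_single, this, ← pow_mul, ← pow_mul, ← pow_succ, ← pow_succ]
      simp
    · have : l ≠ ⟨0, by omega⟩ := fun h => hl (by rw [h])
      left
      rw [Pi.single_eq_of_ne this]

/-- For a solution that is not a `q`-th power, the poles of `x` are hardly larger than those
of `u`. -/
theorem star : ∃ C : ℕ, ∀ (k j : ℕ), 0 < k → ∀ x u : K, Phi (q ^ k) (t ^ q ^ j) x →
    x - t ^ q ^ j = u ^ q ^ k - u → (∀ y, x ≠ y ^ q) →
      ∀ (i : ι) (μ : ℕ), val i u ≤ exp (μ : ℤ) → val i x ≤ exp ((μ : ℤ) + C) := by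
  classical
  have h2 := S.two_le
  obtain ⟨γ, hγ, hc1, hc2⟩ := S.comp' (pow_one q).symm
  obtain ⟨G, hG⟩ := bdd_of_supp hγ
  have hA : {i | q * γ i + (if val i t = 1 then 0 else q) ≠ 0}.Finite := by
    refine (hγ.union (S.supp t S.t_ne)).subset fun i hi => ?_
    by_contra hn
    simp only [Set.mem_union, Set.mem_ofPred_eq, not_or, not_not] at hn
    simp [hn.1, hn.2] at hi
  obtain ⟨B, hB⟩ := S.low _ hA
  refine ⟨q + q * G + B, fun k j hk x u hx hu hn i μ hμ => ?_⟩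
  obtain ⟨c, hc⟩ := S.span q 1 (pow_one q).symm x
  obtain ⟨c', hc'⟩ := S.span q 1 (pow_one q).symm u
  obtain ⟨e, he, he'⟩ := S.comp_rhs hk j u
  have hsum : c + c' = e := by
    apply S.cs_inj (pow_one q).symm
    rw [S.cs_add (pow_one q).symm, ← hc, ← hc', ← he]
    linear_combination hu
  obtain ⟨l, hl, hl0⟩ : ∃ l : Fin q, (l : ℕ) ≠ 0 ∧ c l ≠ 0 := by
    by_contra hcon
    push Not at hcon
    apply hn (c ⟨0, by omega⟩)
    have : c = Pi.single ⟨0, by omega⟩ (c ⟨0, by omega⟩) := by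
      funext d
      by_cases hd : d = ⟨0, by omega⟩
      · rw [hd, Pi.single_eq_same]
      · rw [Pi.single_eq_of_ne hd]
        exact hcon d fun h => hd (Fin.ext h)
    rw [hc, this, cs_single]
    simp
  have hg : ∀ i', val i' (c l ^ q * x⁻¹) ≤
      exp ((q * γ i' + (if val i' t = 1 then 0 else q) : ℕ) : ℤ) := by
    intro i'
    by_cases ht : val i' t = 1
    · obtain ⟨m, hm⟩ := S.phi_ord hk hx ht
      have h3 := hc1 i' m c (by rw [← hc, hm]) l
      have h4 : val i' x⁻¹ ≤ exp (-((q : ℤ) * m)) := by rw [map_inv₀, hm, exp_neg]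
      refine exp_mono (val_mul_le _ h3 h4) ?_
      simp [ht]
    · obtain ⟨m, hm⟩ := ex_exp (val i') hx.1
      have h3 := hc2 i' m c (by rw [← hc, hm]) l
      have h4 : val i' x⁻¹ ≤ exp (-m) := by rw [map_inv₀, hm, exp_neg]
      refine exp_mono (val_mul_le _ h3 h4) ?_
      simp only [ht, if_false]
      push_cast
      omega
  have hlow := hB _ hg (mul_ne_zero (pow_ne_zero _ hl0) (inv_ne_zero hx.1)) i
  have hup : val i (c l ^ q) ≤ exp ((μ : ℤ) + q + q * γ i) := by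
    have h3 := hc2 i μ c' (by rw [← hc']; exact hμ) l
    have h4 : c l = e l - c' l := by rw [← hsum]; simp
    have h5 := S.frob_sub 1 (e l) (c' l)
    rw [pow_one] at h5
    rw [h4, h5]
    refine (val i).map_sub_le ?_ h3
    have h6 : val i (e l ^ q) ≤ 1 := by
      rcases he' l hl with h | h
      · simp [h, show q ≠ 0 by omega]
      · simp [h]
    refine h6.trans ?_
    rw [← exp_zero, exp_le_exp]
    positivity
  obtain ⟨m, hm⟩ := ex_exp (val i) hx.1
  have h4 : val i x⁻¹ ≤ exp (-m) := by rw [map_inv₀, hm, exp_neg]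
  have h5 := hlow.trans (val_mul_le _ hup h4)
  rw [exp_le_exp] at h5
  rw [hm, exp_le_exp]
  have h6 : (q : ℤ) * γ i ≤ q * G := by exact_mod_cast Nat.mul_le_mul_left q (hG i)
  push_cast
  omega

theorem exact_of_star {C E k j : ℕ} (hE : ∀ i, val i t ≤ exp (E : ℤ))
    (hj : j < k)
    (hk : (E + C) * E + C + 1 < q ^ k) {x u : K} (hu : x - t ^ q ^ j = u ^ q ^ k - u)
    (hs : ∀ (i : ι) (μ : ℕ), val i u ≤ exp (μ : ℤ) → val i x ≤ exp ((μ : ℤ) + C)) :
    ∀ i, val i (x - t ^ q ^ j) ≤ 1 := by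
  have h2 := S.two_le
  have hQ : 2 ≤ q ^ k := by omega
  have hτ : ∀ i, val i (t ^ q ^ j) ≤ exp (((q ^ j : ℕ) : ℤ) * E) := fun i =>
    val_pow_le _ (hE i) _
  have step3 : ∀ (i : ι) (μ : ℕ), 1 ≤ μ → val i u = exp (μ : ℤ) → q ^ k * μ ≤ q ^ j * E := by
    intro i μ hμ e
    by_contra hlt
    rw [not_le] at hlt
    have e1 := as_val (val i) hQ hμ e
    have e2 : val i x = exp (((q ^ k : ℕ) : ℤ) * μ) := by
      have : x = u ^ q ^ k - u + t ^ q ^ j := by linear_combination hu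
      rw [this, (val i).map_add_eq_of_lt_left, e1]
      rw [e1]
      refine (hτ i).trans_lt (exp_lt_exp.2 ?_)
      exact_mod_cast hlt
    have h3 := hs i μ e.le
    rw [e2, exp_le_exp] at h3
    have h4 : q ^ k * μ ≤ μ + C := by exact_mod_cast h3
    nlinarith
  have hjk : q ^ j ≤ q ^ k := Nat.pow_le_pow_right (by omega) hj.le
  have huE : ∀ i, val i u ≤ exp (E : ℤ) := by
    intro i
    by_cases h : 1 < val i u
    · obtain ⟨μ, hμ, e⟩ := ex_pole _ h
      have h3 := step3 i μ hμ e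
      rw [e, exp_le_exp]
      have : q ^ k * μ ≤ q ^ k * E := h3.trans (Nat.mul_le_mul_right E hjk)
      exact_mod_cast Nat.le_of_mul_le_mul_left this (by omega)
    · exact (not_lt.1 h).trans (one_le_exp E)
  obtain ⟨a, rfl⟩ : ∃ a, k = j + (a + 1) := ⟨k - j - 1, by omega⟩
  have hz : (t + u ^ q ^ (a + 1)) ^ q ^ j = x + u := by
    rw [S.frob, ← pow_mul, ← pow_add, add_comm (a + 1) j]
    linear_combination -hu
  obtain ⟨i, hi⟩ : ∃ i, 1 < val i (t + u ^ q ^ (a + 1)) := by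
    by_contra hcon
    push Not at hcon
    obtain ⟨z, h3⟩ := S.cst _ hcon
    apply S.not_pow (z - u ^ q ^ a)
    have h4 := S.frob_sub 1 z (u ^ q ^ a)
    rw [pow_one] at h4
    rw [h4, ← pow_mul, ← pow_succ, ← h3]
    ring
  obtain ⟨ρ, hρ, e⟩ := ex_pole _ hi
  have h3 : val i (x + u) ≤ exp ((E : ℤ) + C) :=
    (val i).map_add_le (hs i E (huE i)) (exp_mono (huE i) (by omega))
  rw [← hz, map_pow, e, pow_exp, exp_le_exp] at h3
  have h4 : q ^ j * ρ ≤ E + C := by exact_mod_cast h3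
  have h5 : q ^ j ≤ E + C := by nlinarith
  have h6 : ∀ i, val i u ≤ 1 := by
    intro i'
    by_contra h
    obtain ⟨μ, hμ, e'⟩ := ex_pole _ (not_le.1 h)
    have h7 := step3 i' μ hμ e'
    have h8 : q ^ j * E ≤ (E + C) * E := Nat.mul_le_mul_right E h5
    nlinarith
  intro i'
  rw [hu]
  refine (val i').map_sub_le ?_ (h6 i')
  rw [map_pow]
  exact pow_le_one₀ zero_le (h6 i')

/-- A nonzero element without poles has no zeros. -/
theorem unit {y : K} (h : ∀ i, val i y ≤ 1) (h0 : y ≠ 0) (i : ι) : val i y = 1 := by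
  obtain ⟨B, hB⟩ := S.low (fun _ => 0) (by simp)
  by_contra hne
  have h1 := le_exp_neg_one (val i) (lt_of_le_of_ne (h i) hne)
  have h3 := hB (y ^ (B + 1)) (fun j => by
    rw [map_pow]
    simpa using pow_le_one₀ zero_le (h j)) (pow_ne_zero _ h0) i
  have h4 := h3.trans (val_pow_le (val i) h1 (B + 1))
  rw [exp_le_exp] at h4
  push_cast at h4
  omega

theorem exact_two {k j : ℕ} (hj : j < k) {x : K} (hx : Phi (q ^ k) (t ^ q ^ j) x)
    (h : ∀ i, val i (x - t ^ q ^ j) ≤ 1) : x = t ^ q ^ j := by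
  by_contra hne
  obtain ⟨i, hi⟩ := S.zer
  have h2 := S.two_le
  have h1 := S.unit h (sub_ne_zero.2 hne) i
  have hp := S.pow_pos j
  have hτ : val i (t ^ q ^ j) = exp (-((q ^ j : ℕ) : ℤ)) := by
    rw [map_pow, hi, pow_exp]
    congr 1
    ring
  have hlt : val i (t ^ q ^ j) < 1 := by
    rw [hτ, ← exp_zero, exp_lt_exp]
    omega
  have hx1 : val i x = 1 := by
    rw [show x = x - t ^ q ^ j + t ^ q ^ j by ring,
      (val i).map_add_eq_of_lt_left (by rw [h1]; exact hlt), h1]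
  have hinv : val i (t ^ q ^ j)⁻¹ = exp ((q ^ j : ℕ) : ℤ) := by
    rw [map_inv₀, hτ, ← exp_neg, neg_neg]
  have hgt : (1 : ℤᵐ⁰) < exp ((q ^ j : ℕ) : ℤ) := by
    rw [← exp_zero, exp_lt_exp]
    omega
  have e : val i (x⁻¹ - (t ^ q ^ j)⁻¹) = exp ((q ^ j : ℕ) : ℤ) := by
    rw [(val i).map_sub_eq_of_lt_right (by rw [map_inv₀, hx1, inv_one, hinv]; exact hgt), hinv]
  obtain ⟨w, hw⟩ := hx.2.2
  have hjk : q ^ j < q ^ k := Nat.pow_lt_pow_right (by omega) hj
  obtain ⟨n, hn1, -, hn⟩ := as_pole (val i) (Q := q ^ k) (by omega) (u := w)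
    (by rw [← hw, e]; exact hgt)
  rw [← hw, e, exp_inj] at hn
  have : q ^ j = q ^ k * n := by exact_mod_cast hn
  nlinarith

/-- The set of powers `t ^ q ^ n` with `n` in a residue class modulo `k`. -/
theorem phi_iff : ∃ r : ℕ, 0 < r ∧ ∀ k, 0 < k → r ∣ k → ∀ j < k, ∀ x : K,
    Phi (q ^ k) (t ^ q ^ j) x ↔ ∃ n, n % k = j ∧ x = t ^ q ^ n := by
  obtain ⟨C, hC⟩ := S.star
  obtain ⟨E, hE⟩ := S.bdd t
  have h2 := S.two_le
  refine ⟨(E + C) * E + C + 1, by positivity, fun k hk hrk => ?_⟩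
  have hk' : (E + C) * E + C + 1 < q ^ k := by
    have h3 : (E + C) * E + C + 1 ≤ k := Nat.le_of_dvd hk hrk
    exact h3.trans_lt (Nat.lt_pow_self (by omega))
  have base : ∀ j < k, ∀ x : K, Phi (q ^ k) (t ^ q ^ j) x →
      ((∀ y, x ≠ y ^ q) ∨ ∀ i, val i x ≤ 1) → x = t ^ q ^ j := by
    intro j hj x hx h
    obtain ⟨u, hu⟩ := hx.2.1
    refine S.exact_two hj hx (S.exact_of_star hE hj hk' hu fun i μ hμ => ?_)
    rcases h with h | h
    · exact hC k j hk x u hx hu h i μ hμ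
    · refine (h i).trans ?_
      rw [← exp_zero, exp_le_exp]
      positivity
  have key : ∀ (i : ι) (n : ℕ), ∀ j < k, ∀ x : K, 1 ≤ n → val i x = exp (n : ℤ) →
      Phi (q ^ k) (t ^ q ^ j) x → ∃ n, n % k = j ∧ x = t ^ q ^ n := by
    intro i n
    induction n using Nat.strong_induction_on with
    | _ n ih =>
      intro j hj x hn e hx
      by_cases h : ∀ y, x ≠ y ^ q
      · exact ⟨j, Nat.mod_eq_of_lt hj, base j hj x hx (Or.inl h)⟩
      push Not at h
      obtain ⟨y, rfl⟩ := h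
      have hy : 1 < val i y := by
        by_contra hy
        have : val i (y ^ q) ≤ 1 := by
          rw [map_pow]
          exact pow_le_one₀ zero_le (not_lt.1 hy)
        rw [e, ← exp_zero, exp_le_exp] at this
        omega
      obtain ⟨n', hn', e'⟩ := ex_pole _ hy
      have hlt : n' < n := by
        rw [map_pow, e', pow_exp, exp_inj] at e
        have : q * n' = n := by exact_mod_cast e
        nlinarith
      obtain ⟨j', hj', hjj, hx'⟩ : ∃ j' < k, (j' + 1) % k = j ∧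
          Phi (q ^ k) ((t ^ q ^ j') ^ q) (y ^ q) := by
        cases j with
        | zero =>
          refine ⟨k - 1, by omega, by rw [Nat.sub_add_cancel hk, Nat.mod_self], ?_⟩
          rw [← pow_mul, ← pow_succ, Nat.sub_add_cancel hk]
          have := (S.phi_shift (k := k) 1 (τ := t) (x := y ^ q)).2 (by simpa using hx)
          simpa using this
        | succ j =>
          refine ⟨j, by omega, Nat.mod_eq_of_lt hj, ?_⟩
          rwa [← pow_mul, ← pow_succ]
      obtain ⟨m, hm, rfl⟩ := ih n' hlt j' hj' y hn' e' (S.phi_root hk hx')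
      refine ⟨m + 1, ?_, by rw [← pow_mul, ← pow_succ]⟩
      rw [← hjj, ← hm, Nat.mod_add_mod]
  intro j hj x
  constructor
  · intro hx
    by_cases h : ∀ i, val i x ≤ 1
    · exact ⟨j, Nat.mod_eq_of_lt hj, base j hj x hx (Or.inr h)⟩
    · push Not at h
      obtain ⟨i, hi⟩ := h
      obtain ⟨n, hn, e⟩ := ex_pole _ hi
      exact key i n j hj x hn e hx
  · rintro ⟨n, hn, rfl⟩
    have e : t ^ q ^ n = (t ^ q ^ j) ^ q ^ (k * (n / k)) := by
      rw [← pow_mul, ← pow_add, ← hn, Nat.mod_add_div]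
    rw [← S.phi_shift (n / k), ← e]
    exact ⟨pow_ne_zero _ S.t_ne, by simpa using S.as_zero k, by simpa using S.as_zero k⟩

/-- The powers `t ^ q ^ n` with `n` in a union of residue classes form a diophantine set. -/
theorem dio_pow : ∃ r : ℕ, 0 < r ∧ ∀ k, 0 < k → r ∣ k → ∀ A : ℕ → Prop,
    Dio1 (fun x : K => ∃ n, A (n % k) ∧ x = t ^ q ^ n) := by
  classical
  obtain ⟨r, hr, h⟩ := S.phi_iff
  refine ⟨r, hr, fun k hk hrk A => ?_⟩
  have := Dio.any ((Finset.range k).filter A)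
    (S := fun j (v : Unit → K) => Phi (q ^ k) (t ^ q ^ j) (v ())) fun j => dio_Phi S.aniso _ _
  refine this.congr fun v => ⟨?_, ?_⟩
  · rintro ⟨n, hn, e⟩
    have hlt := Nat.mod_lt n hk
    exact ⟨n % k, by simp [hlt, hn], (h k hk hrk _ hlt _).2 ⟨n, rfl, e⟩⟩
  · rintro ⟨j, hj, hx⟩
    simp only [Finset.mem_filter, Finset.mem_range] at hj
    obtain ⟨n, hn, e⟩ := (h k hk hrk j hj.1 _).1 hx
    exact ⟨n, hn ▸ hj.2, e⟩


/-- The machine equation bounds the poles of the unknowns. -/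
theorem sound {Q k : ℕ} (hQ : Q = q ^ k) (h2 : 2 ≤ Q) : ∃ β : ℕ, ∀ (i : ι) (T a : K)
    (s : Finset (Fin Q)) (y : Fin Q → K), val i T ≤ 1 → val i a ≤ exp (β : ℤ) →
      cs Q t y = a + step Q T s y → ∀ d, val i (y d) ≤ exp (β : ℤ) := by
  obtain ⟨γ, hγ, hc⟩ := S.comp Q k hQ
  obtain ⟨G, hG⟩ := bdd_of_supp hγ
  refine ⟨2 * G + 1, fun i T a s y hT ha e => ?_⟩
  have key : ∀ M : ℕ, (∀ d, val i (y d) ≤ exp (M : ℤ)) →
      ∀ d, val i (y d) ≤ exp ((2 * G + 1 : ℕ) : ℤ) := by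
    intro M
    induction M using Nat.strong_induction_on with
    | _ M ih =>
      intro hM
      by_cases hle : M ≤ 2 * G + 1
      · exact fun d => exp_mono (hM d) (by exact_mod_cast hle)
      refine ih (M - 1) (by omega) fun d => ?_
      have h3 : val i (cs Q t y) ≤ exp (M : ℤ) := by
        rw [e]
        refine (val i).map_add_le (exp_mono ha (by omega)) ?_
        refine (val i).map_sum_le fun b _ => ?_
        rw [map_mul, map_pow]
        exact (mul_le_mul' (pow_le_one₀ zero_le hT) (hM b)).trans (one_mul _).le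
      have h4 : (M : ℤ) ≤ (Q : ℤ) * ((M - 1 - G : ℕ) : ℤ) := by
        have : M ≤ Q * (M - 1 - G) := by
          have : 2 * (M - 1 - G) ≤ Q * (M - 1 - G) := Nat.mul_le_mul_right _ h2
          omega
        exact_mod_cast this
      have h5 := hG i
      exact exp_mono (hc i _ y (exp_mono h3 h4) d) (by omega)
  choose n hn using fun d => ex_le (val i) (y d)
  obtain ⟨M, hM⟩ := (Set.finite_range n).bddAbove
  refine key M fun d => exp_mono (hn d) ?_
  exact_mod_cast hM ⟨d, rfl⟩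

/-- A diophantine set that contains all polynomials in `t` and consists of elements that are
integral wherever `t` is. -/
theorem dio_int {F : Type} [Field F] (φ : Polynomial F →+* K) (ht : φ Polynomial.X = t)
    (hF : ∀ c : F, φ (Polynomial.C c) ^ q = φ (Polynomial.C c)) :
    ∃ X : K → Prop, Dio1 X ∧ (∀ f : Polynomial F, X (φ f)) ∧
      ∀ y, X y → ∀ i, val i t ≤ 1 → val i y ≤ 1 := by
  obtain ⟨r, hr, hD⟩ := S.dio_pow
  have h2 := S.two_le
  have hQ : 4 ≤ q ^ 2 := by nlinarith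
  obtain ⟨β, hβ⟩ := S.sound (Q := q ^ 2) rfl (by omega)
  have hD' : Dio1 (fun x : K => ∃ n, x = t ^ q ^ n) :=
    (hD r hr dvd_rfl fun _ => True).congr fun x => by simp
  refine ⟨fun f => ∃ T : K, ∃ T₁ : K, (∃ n, T = t ^ q ^ n) ∧ (∃ n, T₁ = t ^ q ^ n) ∧
    Sol (q ^ 2) ⟨q ^ 2 - 1, by omega⟩ ⟨2, by omega⟩ t T T₁ (f ^ (β + 1)), ?_, ?_, ?_⟩
  · exact Dio.ex1 (Dio.ex1 (Dio.and S.aniso (hD'.app (PF.var _)) (Dio.and S.aniso
      (hD'.app (PF.var _)) (dio_sol S.aniso _ _ t (PF.var _) (PF.var _) ((PF.var _).pow _)))))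
  · intro f
    obtain ⟨n, hn⟩ := sol_poly φ hQ ht (S.frob 2)
      (fun c : F => by rw [sq, pow_mul, hF, hF]) (f ^ (β + 1))
    rw [map_pow] at hn
    exact ⟨_, _, ⟨2 * n, by rw [← pow_mul]⟩, ⟨2 * (n + 1 + n), by rw [← pow_mul]⟩, hn⟩
  · rintro f ⟨T, T₁, ⟨n, rfl⟩, ⟨n', rfl⟩, z, y, h3, h4, h5⟩ i hi
    have hT : ∀ n, val i (t ^ q ^ n) ≤ 1 := fun n => by
      rw [map_pow]
      exact pow_le_one₀ zero_le hi
    have h6 := hβ i _ 0 _ z (hT n') (by simp) (by rw [zero_add]; exact h3)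
    have h7 := hβ i _ _ _ y (hT n) (h6 _) h4 ⟨2, by omega⟩
    by_contra hlt
    obtain ⟨m, hm, e⟩ := ex_pole _ (not_le.1 hlt)
    rw [h5, map_pow, e, pow_exp, exp_le_exp] at h7
    have : (β + 1) * m ≤ β := by exact_mod_cast h7
    nlinarith

end Sy

theorem pow_row : POW_s := by
  intro K _ q t ι val S
  obtain ⟨r, hr, hD⟩ := S.dio_pow
  exact (hD r hr dvd_rfl fun _ => True).congr fun x => by simp

end Pool.Agent.P55
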